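import Pool.Agent.helper99.PLR.Spec
import Pool.Agent.helper77.HQ.DSC

/-!
# Project plr (MP_d9e35a_co), row UBG: the upper bound for growing `K`
-/

set_option autoImplicit false
set_option linter.unusedVariables false

open scoped Classical

namespace Pool.Agent.PLR

open Finset
open Pool.Agent.helper65.HC (V IsEig IsTop lam)
open Pool.Agent.helper9.HQ (Fam Dn E N Le Eig lk)
open Pool.Agent.helper9.HX (Ef)
open Pool.Agent.helper9.HLR (cel Lc)

noncomputable section

theorem UBG_mono {d : ℕ} {U : Fam d} {L L' : ℝ} (h : Le U L) (hL : L ≤ L') : Le U L' := by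
  intro f
  exact (h f).trans (mul_le_mul_of_nonneg_right hL (Pool.Agent.helper9.HQ.DSC_N U f))

theorem UBG_num1 {K : ℝ} (hK : 1000 ≤ K) : √(K / 2 + 1) + 1 / 100 ≤ 3 / 4 * √K := by
  have hs : √K ^ 2 = K := Real.sq_sqrt (by linarith)
  have h0 : 0 ≤ √K := Real.sqrt_nonneg _
  have h31 : 31 ≤ √K := by
    apply Real.le_sqrt_of_sq_le
    norm_num
    linarith
  have h1 : √(K / 2 + 1) ≤ 3 / 4 * √K - 1 / 100 := by
    apply Real.sqrt_le_iff.2
    constructor
    · linarith
    · nlinarith
  linarith

theorem UBG_num2 {K : ℝ} (hK : 0 ≤ K) : √(K / 2) ≤ 3 / 4 * √K := by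
  have hs : √K ^ 2 = K := Real.sq_sqrt hK
  have h0 : 0 ≤ √K := Real.sqrt_nonneg _
  apply Real.sqrt_le_iff.2
  constructor
  · linarith
  · nlinarith

theorem UBG (hEV : Pool.Agent.helper9.HQ.EV_stmt) (hASA : ASA_stmt) (hBST : BST_stmt) (hLNN : LNN_stmt) : UBG_stmt := by
  intro k eta hk heta heta1
  obtain ⟨K₁, th, d₁, hK1, hth, hB⟩ := hBST k eta hk heta heta1
  obtain ⟨n₀, hn0, hL⟩ := hLNN
  have hA := hASA k
  choose! C D hCD using hA
  set K₀ : ℝ := max K₁ (2 * n₀ + 1000) with hK0
  have hK01 : K₁ ≤ K₀ := le_max_left _ _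
  have hK02 : 2 * (n₀ : ℝ) + 1000 ≤ K₀ := le_max_right _ _
  set M : ℕ := ⌈K₀⌉₊ + 1 with hM
  set Cs : ℝ := ∑ j ∈ Icc 1 M, C j with hCs
  set Ds : ℕ := ∑ j ∈ Icc 1 M, D j with hDs
  have hCpos : ∀ j ∈ Icc 1 M, 0 ≤ C j := fun j hj =>
    ((hCD j hk (Finset.mem_Icc.1 hj).1).1).le
  have hCle : ∀ j ∈ Icc 1 M, C j ≤ Cs := fun j hj => Finset.single_le_sum hCpos hj
  have hDle : ∀ j ∈ Icc 1 M, D j ≤ Ds := fun j hj =>
    Finset.single_le_sum (fun i _ => Nat.zero_le (D i)) hj
  refine ⟨K₀, th, d₁ + Ds + k + ⌈(100 * Cs) ^ 2⌉₊ + 1, le_trans hK1 hK01, hth, ?_⟩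
  intro d hd
  have hd1 : d ≥ d₁ := by omega
  have hdD : Ds ≤ d := by omega
  have hdk : k ≤ d := by omega
  have hd0 : 1 ≤ d := by omega
  have hb : 0 < d.choose k := Nat.choose_pos hdk
  have hbR : (0 : ℝ) < (d.choose k : ℝ) := by exact_mod_cast hb
  have hdR : (0 : ℝ) < (d : ℝ) := by exact_mod_cast hd0
  have hsd : 0 < √(d : ℝ) := Real.sqrt_pos.2 hdR
  have hCs0 : 0 ≤ Cs := Finset.sum_nonneg hCpos
  have hCsd : 100 * Cs ≤ √(d : ℝ) := by
    apply Real.le_sqrt_of_sq_le
    have h1 : ⌈(100 * Cs) ^ 2⌉₊ ≤ d := by omega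
    exact (Nat.le_ceil _).trans (by exact_mod_cast h1)
  have main : ∀ (n : ℕ) (K : ℝ) (U : Fam d), U.card ≤ n → K₀ ≤ K → K ≤ th * d → Dn U →
      (U.card : ℝ) ≤ K * (d.choose k : ℝ) → Le U (hz (k + 1) * √d + (1 + eta) * √K) := by
    intro n
    induction n with
    | zero =>
      intro K U hUn hKK hKd hD hU
      apply Pool.Agent.helper9.HQ.DSC_empty
      have h1 : U = ∅ := Finset.card_eq_zero.1 (Nat.le_zero.1 hUn)
      rw [h1]
      exact Finset.not_nonempty_empty
    | succ n ih =>
      intro K U hUn hKK hKd hD hU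
      by_cases hne : U.Nonempty
      swap
      · exact Pool.Agent.helper9.HQ.DSC_empty hne _
      obtain ⟨l, f, hl0, hE⟩ := hEV d U hD hne
      have hUpos : 0 < U.card := Finset.card_pos.2 hne
      have hK1000 : 1000 ≤ K := by
        have : (0 : ℝ) ≤ n₀ := Nat.cast_nonneg _
        linarith
      have hsK : 0 ≤ √K := Real.sqrt_nonneg _
      by_cases hle : l ≤ hz (k + 1) * √d + (1 + eta) * √K
      · exact UBG_mono hE.le hle
      push Not at hle
      exfalso
      have hlinks : ∀ i, Le (lk i U) (hz (k + 1) * √d + (3 / 4 + eta) * √K) := by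
        intro i
        have hc2 := Pool.Agent.helper9.HQ.DSC_card U i
        have hDi : Dn (lk i U) := Pool.Agent.helper9.HQ.DSC_dn hD i
        have hcR : ((lk i U).card : ℝ) ≤ K / 2 * (d.choose k : ℝ) := by
          have h1 : (2 : ℝ) * (lk i U).card ≤ U.card := by exact_mod_cast hc2
          linarith
        by_cases hKh : K₀ ≤ K / 2
        · have h1 := ih (K / 2) (lk i U) (by omega) hKh (by linarith) hDi hcR
          apply UBG_mono h1
          have h2 := UBG_num2 (K := K) (by linarith)
          have h3 : (1 + eta) * √(K / 2) ≤ (1 + eta) * (3 / 4 * √K) :=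
            mul_le_mul_of_nonneg_left h2 (by linarith)
          have h4 : 0 ≤ eta * √K := mul_nonneg heta.le hsK
          nlinarith
        · push Not at hKh
          set m : ℕ := ⌊K / 2⌋₊ + 1 with hm
          have hfl : (⌊K / 2⌋₊ : ℝ) ≤ K / 2 := Nat.floor_le (by linarith)
          have hlt : K / 2 < (m : ℝ) := by
            rw [hm]
            push_cast
            exact Nat.lt_floor_add_one _
          have hmM : m ≤ M := by
            rw [hm, hM]
            have h1 : ⌊K / 2⌋₊ ≤ ⌈K₀⌉₊ := (Nat.floor_le_floor hKh.le).trans (Nat.floor_le_ceil _)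
            omega
          have hmIcc : m ∈ Icc 1 M := Finset.mem_Icc.2 ⟨by omega, hmM⟩
          have hmn : n₀ ≤ m := by
            have h1 : (n₀ : ℝ) ≤ m := by
              have : (0 : ℝ) ≤ n₀ := Nat.cast_nonneg _
              linarith
            exact_mod_cast h1
          obtain ⟨hCm, hAm⟩ := hCD m hk (Finset.mem_Icc.1 hmIcc).1
          have hcm : ((lk i U).card : ℝ) ≤ m * (d.choose k : ℝ) :=
            hcR.trans (mul_le_mul_of_nonneg_right hlt.le hbR.le)
          have hcN : (lk i U).card < (m + 1) * d.choose k := by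
            have h1 : (lk i U).card ≤ m * d.choose k := by exact_mod_cast hcm
            have h2 : m * d.choose k < (m + 1) * d.choose k :=
              Nat.mul_lt_mul_of_pos_right (Nat.lt_succ_self m) hb
            omega
          have h5 := hAm d ((hDle m hmIcc).trans hdD) (lk i U) hDi hcN
          apply UBG_mono h5
          have h6 : C m * (d.choose k : ℝ) / (√d * ((m + 1) * (d.choose k : ℝ) - (lk i U).card)) ≤ 1 / 100 := by
            have h7 : (d.choose k : ℝ) ≤ (m + 1) * (d.choose k : ℝ) - (lk i U).card := by linarith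
            have h8 : (0 : ℝ) < √d * ((m + 1) * (d.choose k : ℝ) - (lk i U).card) :=
              mul_pos hsd (by linarith)
            rw [div_le_iff₀ h8]
            have h9 : 100 * C m ≤ √(d : ℝ) := by
              have := hCle m hmIcc
              linarith
            have h10 : 100 * C m * (d.choose k : ℝ) ≤ √(d : ℝ) * ((m + 1) * (d.choose k : ℝ) - (lk i U).card) :=
              mul_le_mul h9 h7 hbR.le hsd.le
            linarith
          obtain ⟨hl1, hl2⟩ := hL m hmn
          have h11 : lam m m ≤ √(K / 2 + 1) := by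
            apply Real.le_sqrt_of_sq_le
            rw [hl2, hm]
            push_cast
            linarith
          have h12 := UBG_num1 hK1000
          have h13 : 0 ≤ eta * √K := mul_nonneg heta.le hsK
          linarith
      have hl1 : hz (k + 1) * √d ≤ l := by
        have h1 : 0 ≤ (1 + eta) * √K := mul_nonneg (by linarith) hsK
        linarith
      have h2 := hB d hd1 K U l f (hK01.trans hKK) hKd hD hU hE hl1 (fun i => UBG_mono (hlinks i) (by linarith))
      linarith
  intro K U hKK hKd hD hU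
  exact main U.card K U le_rfl hKK hKd hD hU

end

end Pool.Agent.PLR
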